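import Pool.Agent.Run7.h184.AJ.Main

/-!
# The Hodge `D`-conjecture on coniveau for all powers: true, or the defect is huge

Let `X` be a smooth projective complex variety which satisfies the sign conjecture `C⁺`: the projector
of `H^*(X)` to its even part is algebraic (known for curves, surfaces, abelian varieties, complete
intersections, and products of such varieties).  Let `b` be the sum of the Betti numbers of `X` and
`ρ(n)` the rank of the group of all cycles on `X ^ n` modulo numerical equivalence.  Let `m ≥ 1`.  For a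
smooth projective complex variety `Y` let

* `D(Y)` be the sum of the real Deligne cohomology groups `H^i_D(Y, ℝ(j))` over all `i`, `j` with
  `2 j - i = m`,
* `con(Y)` be the sum of their subspaces `N^(i - j) H^i_D(Y, ℝ(j))`, and
  `defect(Y) = dim (D(Y) / con(Y))`.

So `Holds` for `Y` (`con(Y) = D(Y)`) is the statement `Q1` for `Y` and all `i`, `j` with `2 j - i = m`.

Theorem.

1. (Law.)  The quotients `defect(X ^ n) / ρ(n)` converge for `n → ∞` to an element `N` of
   `{0, 1, 2, …, ∞}`, and `N = 0` if and only if `Q1` is true for ALL powers of `X`.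
2. (Finite type.)  If `N` is finite then `defect(X ^ (2 n)) ≤ N ρ(2 n)` for all `n`, and there are at most
   `N` classes `z_i` in `D(X ^ a)`, for one `a`, such that `D(X ^ n)` is, for ALL `n`, the sum of
   `con(X ^ n)` and of the span of the images of the `z_i` under correspondences.  Each composition of
   `N` numerically trivial correspondences between powers of `X` maps `D` into `con`.
3. (Gap.)  If `Q1` fails for one power `X ^ a`, then for ALL `n` with
   `2 n ≥ 128 (a + 1) ^ 2 b ^ (2 a + 6)` we have `defect(X ^ (2 n)) ≥ ρ(2 n) / 2` and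
   `defect(X ^ (2 n)) ≥ b ^ (2 n) / (2 (n + 1) ^ (b ^ 2))`, where `b ^ (2 n)` is the dimension of the whole
   cohomology.  So a single inequality for one explicit large power implies `Q1` for `X ^ a`, for all
   `i`, `j` with `2 j - i = m`.

The setting.  `C` is the category of the smooth projective complex varieties with the groups
`CH^*(Y × Z) ⊗ ℝ` (all codimensions) as morphisms, a rigid symmetric monoidal category, `T = h(X)`
is self-dual, `tp T n = h(X ^ n)`, `R` is the singular cohomology with complex coefficients.  The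
structure `ConiveauFunctor` records what is used: correspondences act on the real Deligne cohomology,
and a correspondence of codimension `dim Y + r` maps `N^p H^i_D(Y, ℝ(j))` into
`N^(p + r) H^(i + 2 r)_D(Z, ℝ(j + r))` (by the moving lemma: `Γ` can be chosen such that it meets
`S × Z` properly, where `S` is the support, and acts by `α ↦ pr₂_* (pr₁^* α · Γ)`).  As
`(i + 2 r) - (j + r) = (i - j) + r`, it maps `con(Y)` into `con(Z)`.

Proof.  The law of the dimensions of the values of additive functors on the powers of `X` (`N64/AF` in the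
starting tree) is applied to the functor `D / con`.
-/

set_option autoImplicit false

open CategoryTheory MonoidalCategory Module
open Pool.Agent.Y112.SR Pool.Agent.Y112.KD Pool.Agent.N64.AF Pool.Agent.Run7.h184.AJ

namespace Pool.Agent.Results.MP_2dc9e5_ag.SupportOnPowers

universe v u w x

/-- The real Deligne cohomology with its coniveau part.  In the intended use `D Y` is the sum of the
groups `H^i_D(Y, ℝ(j))` over all `i`, `j` with `2 j - i = m`, for a fixed `m ≥ 1`, and `con Y` is the sum of
the subspaces `N^(i - j) H^i_D(Y, ℝ(j))`. -/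
structure ConiveauFunctor (C : Type u) [Category.{v} C] [Preadditive C] [Linear ℝ C] where
  /-- the real Deligne cohomology -/
  D : C ⥤ ModuleCat.{x} ℝ
  [additive : D.Additive]
  [linear : D.Linear ℝ]
  /-- the classes with support in codimension `i - j` -/
  con : ∀ Y : C, Submodule ℝ (D.obj Y)
  map_con : ∀ {Y Z : C} (f : Y ⟶ Z), (con Y).map (D.map f).hom ≤ con Z

attribute [instance] ConiveauFunctor.additive ConiveauFunctor.linear

namespace ConiveauFunctor

section Basic

variable {C : Type u} [Category.{v} C] [Preadditive C] [Linear ℝ C]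
  (A : ConiveauFunctor.{v, u, x} C)

/-- `Q1` for `Y`: the real Deligne cohomology has the expected support. -/
def Holds (Y : C) : Prop := A.con Y = ⊤

/-- The defect: the dimension of `D(Y) / con(Y)`. -/
noncomputable def defect (Y : C) : ℕ∞ := dimE ℝ (A.D.obj Y ⧸ A.con Y)

lemma con_stab : IsStab A.D A.con :=
  fun _ _ f _ ha => A.map_con f ⟨_, ha, rfl⟩

/-- The functor `D / con`. -/
noncomputable def Q : C ⥤ ModuleCat.{x} ℝ := quoS A.D A.con A.con_stab

instance : A.Q.Additive := by unfold Q; infer_instance

instance : A.Q.Linear ℝ := by unfold Q; infer_instance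

lemma dimE_Q (Y : C) : dimE ℝ (A.Q.obj Y) = A.defect Y := rfl

lemma sub_Q (Y : C) : Subsingleton (A.Q.obj Y) ↔ A.Holds Y :=
  Submodule.Quotient.subsingleton_iff

lemma span_lift {V : Type x} [AddCommGroup V] [Module ℝ V] {E : Submodule ℝ V}
    {S : Set (V ⧸ E)} {S' : Set V} (hS : ∀ s ∈ S, ∃ s' ∈ S', (Submodule.Quotient.mk s' : V ⧸ E) = s)
    (a : V) (ha : (Submodule.Quotient.mk a : V ⧸ E) ∈ Submodule.span ℝ S) :
    a ∈ E ⊔ Submodule.span ℝ S' := by
  have key : Submodule.span ℝ S ≤ (E ⊔ Submodule.span ℝ S').map E.mkQ := by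
    refine Submodule.span_le.2 fun s hs => ?_
    obtain ⟨s', h1, rfl⟩ := hS s hs
    exact ⟨s', Submodule.mem_sup_right (Submodule.subset_span h1), rfl⟩
  obtain ⟨b, hb, hab⟩ := key ha
  have h1 : b - a ∈ E := (Submodule.Quotient.eq _).1 hab
  have h3 : a = b - (b - a) := by abel
  rw [h3]
  exact Submodule.sub_mem _ hb (Submodule.mem_sup_left h1)

end Basic

end ConiveauFunctor

variable {C : Type u} [Category.{v} C] [Preadditive C] [MonoidalCategory C]
  [MonoidalPreadditive C] [SymmetricCategory C] [RightRigidCategory C]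
  [Linear ℝ C] [MonoidalLinear ℝ C]
  {K : Type w} [Field K] [IsAlgClosed K] [Algebra ℝ K] {R : SuperRealisation C K}

/-- The coniveau of the real Deligne cohomology of all powers of a variety: the law of the defects, the
finiteness of the exceptional classes, and the gap. -/
theorem result (A : ConiveauFunctor.{v, u, x} C) (T : C) [ExactPairing T T] (h : IsPow ℝ R T) :
    (∃ N : ℕ∞, RatioTo ℝ T (fun n => A.defect (tp T n)) N ∧ (N = 0 ↔ ∀ n, A.Holds (tp T n)) ∧
      (N ≠ ⊤ → (∀ n, A.defect (tp T (2 * n)) ≤ N * numRank ℝ (tp T (2 * n))) ∧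
        ∃ (a l : ℕ) (z : Fin l → A.D.obj (tp T a)), (l : ℕ∞) ≤ N ∧
          ∀ n, A.con (tp T n) ⊔ Submodule.span ℝ {y : A.D.obj (tp T n) |
            ∃ (i : Fin l) (c : tp T a ⟶ tp T n), (A.D.map c).hom (z i) = y} = ⊤) ∧
      ∀ k : ℕ, N = k → ∀ (a b : ℕ) (f : tp T a ⟶ tp T b), NumPow T k f →
        ∀ y : A.D.obj (tp T a), (A.D.map f).hom y ∈ A.con (tp T b)) ∧
    ∀ a n : ℕ, 128 * (a + 1) ^ 2 * bt R T ^ (2 * a + 6) ≤ 2 * n → ¬ A.Holds (tp T a) →
      Large ℝ R T n (A.defect (tp T (2 * n))) := by
  obtain ⟨N, a1, a2, a3⟩ := law h A.Q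
  refine ⟨⟨N, a1, a2.trans (forall_congr' fun n => A.sub_Q _), fun hN => ?_, ?_⟩,
    fun m n hn hm => ?_⟩
  · obtain ⟨b1, m, l, z, hl, hz⟩ := a3 hN
    refine ⟨fun n => ?_, ?_⟩
    · obtain ⟨c1, -, -⟩ := b1 (2 * n)
      obtain ⟨-, c2, -⟩ := b1 n
      rw [← A.dimE_Q]
      have : dimE ℝ (A.Q.obj (tp T (2 * n))) = (finrank ℝ (A.Q.obj (tp T (2 * n))) : ℕ∞) := by
        have := c1
        rw [dimE_eq]
      rw [this]
      exact c2
    · choose z' hz' using fun i => Submodule.mkQ_surjective (A.con (tp T m)) (z i)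
      refine ⟨m, l, z', hl, fun n => ?_⟩
      rw [eq_top_iff]
      intro y _
      refine ConiveauFunctor.span_lift (S := {y : A.Q.obj (tp T n) |
        ∃ (i : Fin l) (c : tp T m ⟶ tp T n), (A.Q.map c).hom (z i) = y}) ?_ y (hz n _)
      rintro _ ⟨i, c, rfl⟩
      refine ⟨(A.D.map c).hom (z' i), ⟨i, c, rfl⟩, ?_⟩
      rw [← hz' i]
      rfl
  · rintro k rfl a b f hf y
    obtain ⟨-, hst⟩ := structure_thm h A.Q a1
    have h1 := hst a b f hf
    have h2 := congrArg (fun q : A.Q.obj (tp T a) ⟶ A.Q.obj (tp T b) =>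
      q.hom (show A.Q.obj (tp T a) from (Submodule.Quotient.mk y :
        A.D.obj (tp T a) ⧸ A.con (tp T a)))) h1
    have h3 : (Submodule.Quotient.mk ((A.D.map f).hom y) :
        A.D.obj (tp T b) ⧸ A.con (tp T b)) = 0 := h2
    exact (Submodule.Quotient.mk_eq_zero (A.con (tp T b))).1 h3
  · exact gap h A.Q hn fun hs => hm ((A.sub_Q _).1 hs)

end Pool.Agent.Results.MP_2dc9e5_ag.SupportOnPowers
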