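import Pool.Agent.Run7.h153.EK.Span

set_option autoImplicit false

/-!
The Hodge-D-conjecture for the symmetric squares `X = Sym² C` of all hyperelliptic curves `C` of genus `g` (surfaces of
general type for `g ≥ 3`; for `g = 2` the Jacobian of `C` blown up in a point), and for all abelian surfaces.

**What is to be shown.** For a surface `X` only `i = 3`, `j = 2` is in question: `H³_D(X, ℝ(2)) = H^{1,1}(X) ∩ H²(X, ℝ(1))` has to
be generated by the currents `∑ φ_α δ_{Z_α}`, where `Z_α` are curves on `X` and `φ_α` real functions on them which are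
harmonic outside of finitely many points where they have logarithmic singularities with real coefficients (for example
`log |f_α|` for a rational function `f_α`), such that the divisors `∑ div φ_α` cancel on `X`. Equivalently: a real
`(1,1)`-form which is orthogonal to all these currents is exact.

**Symmetric squares.** Let `C : y² = D(x)`, `deg D = 2 g + 2`, with the differentials `ω_k = x^k dx / y`, `k < g`. The space
`H^{1,1}(Sym² C)` has dimension `g² + 1`: besides the class `η` of the curves `C + P` there are the classes of the forms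
`w_h = ∑ h_{kl} (pr₁* ω_k ∧ pr₂* conj(ω_l) + pr₂* ω_k ∧ pr₁* conj(ω_l))` on `C × C`. For `a, b ∈ ℂ` let `φ` be the function
`log |(x - a) / (x - b)|` on the diagonal `Δ = {2 P} ≅ C`. Its divisor is `2 P_a + 2 P_a' - 2 P_b - 2 P_b'` (points of
`Sym² C`; `P_a, P_a'` are the points of `C` over `a`), and it is cancelled by Green functions on the curves `C + P_a`
(`2 P_a` to `P_a + P_b`), `C + P_b` (`P_a + P_b` to `2 P_b`), and the same for `P_a', P_b'`. The forms `w_h` vanish on the
curves `C + P`, and on the diagonal `w_h = 2 ∑ h_{kl} ω_k ∧ conj(ω_l)`. So the value of the current on `w_h` is, up to a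
factor which does not depend on `h`, `∑ h_{kl} M_{kl}(a, b)` with the hermitian matrix
`M_{kl}(a, b) = ∫ log |(x - a) / (x - b)| x^k conj(x^l) / |D(x)|` below.

The theorem says that the real span of the matrices `M(a, b)` is the space of all hermitian matrices, of dimension `g²`.
With the constant functions on `C + P` it follows that these currents generate `H^{1,1}(X) ∩ H²(X, ℝ(1))`.

**Jacobians, abelian surfaces.** By push-forward along `Sym² C → J(C)` one gets the case `i = 2 g - 1`, `j = g` for the
Jacobians of all hyperelliptic curves. For `g = 2` these are all cases `i, j` for the surface `J(C)`, and every abelian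
surface is isogenous to the Jacobian of a curve of genus two.
-/

namespace Pool.Agent.Results.MP_2dc9e5_ag.SymmetricSquares

open MeasureTheory Polynomial

open scoped ComplexConjugate

/-- The matrix `M_{kl}(a, b) = ∫ log |(x - a) / (x - b)| x^k conj(x^l) / |D(x)|`, `0 ≤ k, l < g` (integral over the complex
plane). -/
noncomputable def M (g : ℕ) (D : ℂ[X]) (a b : ℂ) : Matrix (Fin g) (Fin g) ℂ := fun k l =>
  ∫ x : ℂ, ((Real.log (‖x - a‖ / ‖x - b‖) / ‖D.eval x‖ : ℝ) : ℂ) * (x ^ (k : ℕ) * conj (x ^ (l : ℕ)))

/-- Let `D` be a squarefree complex polynomial of degree `2 g + 2`, `g ≥ 1`. The integrals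
`M_{kl}(a, b) = ∫ log |(x - a) / (x - b)| x^k conj(x^l) / |D(x)|` over the complex plane converge, and the real span of the
matrices `M(a, b)`, `a, b ∈ ℂ`, is the space of all hermitian `g × g` matrices. -/
theorem result (g : ℕ) (hg : 1 ≤ g) (D : ℂ[X]) (hD : Squarefree D) (hdeg : D.natDegree = 2 * g + 2) :
    (∀ (a b : ℂ) (k l : ℕ), k < g → l < g → Integrable fun x : ℂ =>
      ((Real.log (‖x - a‖ / ‖x - b‖) / ‖D.eval x‖ : ℝ) : ℂ) * (x ^ k * conj (x ^ l))) ∧
    (Submodule.span ℝ (Set.range fun p : ℂ × ℂ => M g D p.1 p.2) : Set (Matrix (Fin g) (Fin g) ℂ)) =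
      {N | N.IsHermitian} :=
  ⟨fun a b _ _ hk hl => Run7.h153.EK.integrable_entry hg hD hdeg a b hk hl,
    Run7.h153.EK.span_eq hg hD hdeg⟩

end Pool.Agent.Results.MP_2dc9e5_ag.SymmetricSquares
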